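import Pool.Agent.H.MP_e449c6_nt.C

namespace Pool.Agent.Results.MP_e449c6_nt.Yes

open NumberField Pool.Agent.H.MP_4f0cf1_nt Pool.Agent.H.MP_e449c6_nt

/-- The determinant `D_p`, of order `(p - 3) / 2`. -/
noncomputable def D (p : ℕ) [Fact p.Prime] (x y z w : ℂ) : ℂ :=
  (Matrix.of fun j k : Fin ((p - 3) / 2) => x + (legendreSym p ((j : ℕ) - (k : ℕ)) : ℂ) +
    (legendreSym p (j : ℕ) : ℂ) * y + (legendreSym p (k : ℕ) : ℂ) * z +
    (legendreSym p ((j : ℕ) * (k : ℕ)) : ℂ) * w).det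

theorem result (p : ℕ) [Fact p.Prime] (hp : 5 ≤ p) :
    (p % 4 = 1 → ∀ (K : Type) [Field K] [NumberField K], Module.finrank ℚ K = 2 →
      ∀ s : K, s ^ 2 = p → ∀ (φ : K →+* ℝ) (ε : (𝓞 K)ˣ), 1 < φ ε →
      (∀ η : (𝓞 K)ˣ, 1 < φ η → φ ε ≤ φ η) → ∃ a b : ℤ,
        φ ε ^ ((2 - legendreSym p 2) * classNumber K) = a + b * √p ∧ ∀ x y z w : ℂ, D p x y z w =
          legendreSym p 2 * (2 * a - p * b) * x + (a - 2 * b) * ((1 + y) * (1 + z) - w * x)) ∧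
    (p % 4 = 3 → ∀ x y z w : ℂ, D p x y z w = w * x + (1 + y) * (1 - z)) := by
  have ho := (Fact.out : p.Prime).eq_two_or_odd.resolve_left (by omega)
  obtain ⟨m, h1⟩ : ∃ m, p = 2 * (m + 2) + 1 := ⟨(p - 5) / 2, by omega⟩
  have h2 : (p - 3) / 2 = m + 1 := by omega
  unfold D
  rw [h2]
  simp only [c_leg, Int.cast_sub, Int.cast_mul, Int.cast_natCast, c_mul, Int.cast_ofNat]
  refine ⟨fun h K _ _ hK s hs φ ε e1 e2 => ?_, fun h => skew h1 h⟩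
  obtain ⟨a, b, a1, a2⟩ := ints h1 h
  exact ⟨a, b, unit_eq h1 h (a2.symm.trans (E_one h1 h hK hs φ ε e1 e2)), one_a h1 h a1 a2⟩

end Pool.Agent.Results.MP_e449c6_nt.Yes
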